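import Pool.Agent.Helper213.Forest.Basic

namespace H213F

open SimpleGraph Finset Filter Topology

open scoped Classical in
/-- remove few vertices so that every remaining pattern occurs robustly -/
theorem exists_kill {P W : Type} [Fintype P] [Fintype W] (k : ℕ) (Occ : P → Finset W → Prop)
    (hanti : ∀ p Y Y', Y ⊆ Y' → Occ p Y' → Occ p Y) :
    ∃ X : Finset W, X.card ≤ k * Fintype.card P ∧
      ∀ p, Occ p X → ∀ B : Finset W, B.card ≤ k → Occ p (X ∪ B) := by
  obtain ⟨S, hS, hmax⟩ := Finset.exists_max_image
    (univ.filter (fun S : Finset P => ∃ X : Finset W, X.card ≤ k * S.card ∧ ∀ p ∈ S, ¬ Occ p X))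
    (fun S => S.card) ⟨∅, by simp⟩
  simp only [mem_filter, mem_univ, true_and] at hS hmax
  obtain ⟨X, hX, hSX⟩ := hS
  refine ⟨X, hX.trans (Nat.mul_le_mul_left _ (Finset.card_le_univ S)), ?_⟩
  intro p hp B hB
  by_contra hcon
  have hpS : p ∉ S := fun h => hSX p h hp
  have := hmax (insert p S) ⟨X ∪ B, by
    rw [Finset.card_insert_of_notMem hpS, Nat.mul_add, Nat.mul_one]
    exact (Finset.card_union_le _ _).trans (Nat.add_le_add hX hB), by
    intro p' hp'
    rcases Finset.mem_insert.1 hp' with rfl | h
    · exact hcon
    · exact fun h' => hSX p' h (hanti _ _ _ Finset.subset_union_left h')⟩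
  rw [Finset.card_insert_of_notMem hpS] at this
  omega

section amal

variable {V W : Type} [Fintype V] [Fintype W]

/-- An occurrence of the pattern K (with roots given by ρ) outside Y. -/
def IsOcc (F : SimpleGraph V) (G : SimpleGraph W) {H : Finset W} (ρ : V → Option H) (K : Finset V)
    (Y : Finset W) (ψ : V → W) : Prop :=
  Set.InjOn ψ K ∧ (∀ u ∈ K, ψ u ∉ Y) ∧ (∀ u ∈ K, ∀ v ∈ K, F.Adj u v → G.Adj (ψ u) (ψ v)) ∧
    (∀ u ∈ K, ∀ r h, ρ r = some h → F.Adj u r → G.Adj (ψ u) h)

/-- projection of the amalgam -/
def prj {H D : Finset W} {q : ℕ} : (H ⊕ (Fin q × D)) → W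
  | Sum.inl h => h
  | Sum.inr x => x.2

/-- index of the copy -/
def idx {H D : Finset W} {q : ℕ} : (H ⊕ (Fin q × D)) → Option (Fin q)
  | Sum.inl _ => none
  | Sum.inr x => some x.1

/-- q copies of G restricted to H ∪ D glued along H -/
def amal (G : SimpleGraph W) (H D : Finset W) (q : ℕ) : SimpleGraph (H ⊕ (Fin q × D)) where
  Adj a b := G.Adj (prj a) (prj b) ∧ ∀ i j, idx a = some i → idx b = some j → i = j
  symm := ⟨fun _ _ h => ⟨h.1.symm, fun i j hi hj => (h.2 j i hj hi).symm⟩⟩
  loopless := ⟨fun _ h => G.loopless.irrefl _ h.1⟩

open scoped Classical in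
theorem amal_free (F : SimpleGraph V) (G : SimpleGraph W) [Nonempty W] (hG : F.Free G)
    (H Y X : Finset W) (hHY : H ⊆ Y)
    (hrob : ∀ (ρ : V → Option H) (K : Finset V), (∃ ψ, IsOcc F G ρ K (Y ∪ X) ψ) →
      ∀ B : Finset W, B.card ≤ Fintype.card V → ∃ ψ, IsOcc F G ρ K (Y ∪ (X ∪ B)) ψ) (q : ℕ) :
    F.Free (amal G H (Y ∪ X)ᶜ q) := by
  rintro ⟨f⟩
  have hfi : Function.Injective f := f.injective
  have hfa : ∀ u v, F.Adj u v → (amal G H (Y ∪ X)ᶜ q).Adj (f u) (f v) := fun u v h => f.toHom.map_adj h
  set ρ : V → Option H := fun r => (f r).elim some (fun _ => none) with hρ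
  have hρs : ∀ r h, ρ r = some h → f r = Sum.inl h := by
    intro r h hr
    simp only [hρ] at hr
    rcases hfr : f r with x | x
    · rw [hfr] at hr
      simp only [Sum.elim_inl, Option.some.injEq] at hr
      rw [hr]
    · rw [hfr] at hr
      simp at hr
  have hρi : ∀ r, ρ r = none → ∃ j, idx (f r) = some j := by
    intro r hr
    simp only [hρ] at hr
    rcases hfr : f r with x | x
    · rw [hfr] at hr
      simp at hr
    · exact ⟨x.1, rfl⟩
  have hin : ∀ r j, idx (f r) = some j → prj (f r) ∉ Y ∪ X := by
    intro r j hr
    rcases hfr : f r with x | x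
    · rw [hfr] at hr
      simp [idx] at hr
    · have := x.2.2
      simp only [prj]
      intro hc
      exact (Finset.mem_compl.1 this) hc
  have hinj2 : ∀ r r' j, idx (f r) = some j → idx (f r') = some j → prj (f r) = prj (f r') →
      r = r' := by
    intro r r' j h1 h2 h3
    apply hfi
    rcases hfr : f r with x | x
    · rw [hfr] at h1
      simp [idx] at h1
    · rcases hfr' : f r' with y | y
      · rw [hfr'] at h2
        simp [idx] at h2
      · rw [hfr] at h1 h3
        rw [hfr'] at h2 h3
        simp only [idx, Option.some.injEq] at h1 h2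
        simp only [prj] at h3
        congr 1
        exact Prod.ext (h1.trans h2.symm) (Subtype.ext h3)
  have key : ∀ S : Finset (Fin q), ∃ ψ : V → W,
      IsOcc F G ρ (univ.filter (fun u => ∃ j ∈ S, idx (f u) = some j)) Y ψ := by
    intro S
    induction S using Finset.induction_on with
    | empty =>
      refine ⟨fun _ => Classical.arbitrary W, ?_, ?_, ?_, ?_⟩ <;> simp
    | insert j S hjS ih =>
      obtain ⟨ψ, hψ1, hψ2, hψ3, hψ4⟩ := ih
      have hocc : ∃ ψ', IsOcc F G ρ (univ.filter (fun u => idx (f u) = some j)) (Y ∪ X) ψ' := by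
        refine ⟨fun u => prj (f u), ?_, ?_, ?_, ?_⟩
        · intro a ha b hb hab
          exact hinj2 a b j (by simpa using ha) (by simpa using hb) hab
        · intro u hu
          exact hin u j (by simpa using hu)
        · intro u _ v _ huv
          exact (hfa u v huv).1
        · intro u hu r h hr hur
          have h1 := (hfa u r hur).1
          rw [hρs r h hr] at h1
          exact h1
      obtain ⟨ψ', h1, h2, h3, h4⟩ := hrob ρ _ hocc (univ.image ψ) (by
        exact (Finset.card_image_le).trans (by simp))
      have hne : ∀ u, idx (f u) = some j → ∀ v, ψ' u ≠ ψ v := by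
        intro u hu v he
        apply h2 u (by simpa using hu)
        simp only [Finset.mem_union, Finset.mem_image]
        exact Or.inr (Or.inr ⟨v, mem_univ _, he.symm⟩)
      have hnY : ∀ u, idx (f u) = some j → ψ' u ∉ Y := by
        intro u hu he
        apply h2 u (by simpa using hu)
        simp only [Finset.mem_union]
        exact Or.inl he
      have hmem : ∀ u, (∃ i ∈ insert j S, idx (f u) = some i) → idx (f u) ≠ some j →
          u ∈ univ.filter (fun u => ∃ j ∈ S, idx (f u) = some j) := by
        rintro u ⟨i, hi, hui⟩ hu
        rcases Finset.mem_insert.1 hi with rfl | hi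
        · exact absurd hui hu
        · simp only [mem_filter, mem_univ, true_and]
          exact ⟨i, hi, hui⟩
      refine ⟨fun u => if idx (f u) = some j then ψ' u else ψ u, ?_, ?_, ?_, ?_⟩
      · intro a ha b hb hab
        have ha : ∃ i ∈ insert j S, idx (f a) = some i := by simpa using ha
        have hb : ∃ i ∈ insert j S, idx (f b) = some i := by simpa using hb
        by_cases haj : idx (f a) = some j
        · by_cases hbj : idx (f b) = some j
          · simp only [haj, hbj, if_true] at hab
            exact h1 (by simpa using haj) (by simpa using hbj) hab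
          · simp only [haj, hbj, if_true, if_false] at hab
            exact absurd hab (hne a haj b)
        · by_cases hbj : idx (f b) = some j
          · simp only [haj, hbj, if_true, if_false] at hab
            exact absurd hab.symm (hne b hbj a)
          · simp only [haj, hbj, if_false] at hab
            exact hψ1 (Finset.mem_coe.2 (hmem a ha haj)) (Finset.mem_coe.2 (hmem b hb hbj)) hab
      · intro u hu
        have hu : ∃ i ∈ insert j S, idx (f u) = some i := by simpa using hu
        by_cases huj : idx (f u) = some j
        · simp only [huj, if_true]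
          exact hnY u huj
        · simp only [huj, if_false]
          exact hψ2 u (hmem u hu huj)
      · intro a ha b hb hab
        have ha : ∃ i ∈ insert j S, idx (f a) = some i := by simpa using ha
        have hb : ∃ i ∈ insert j S, idx (f b) = some i := by simpa using hb
        have hid := (hfa a b hab).2
        by_cases haj : idx (f a) = some j
        · by_cases hbj : idx (f b) = some j
          · simp only [haj, hbj, if_true]
            exact h3 a (by simpa using haj) b (by simpa using hbj) hab
          · obtain ⟨i, _, hi⟩ := hb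
            have := hid j i haj hi
            rw [this] at hbj
            exact absurd hi hbj
        · by_cases hbj : idx (f b) = some j
          · obtain ⟨i, _, hi⟩ := ha
            have := hid i j hi hbj
            rw [← this] at haj
            exact absurd hi haj
          · simp only [haj, hbj, if_false]
            exact hψ3 a (hmem a ha haj) b (hmem b hb hbj) hab
      · intro u hu r h hr hur
        have hu : ∃ i ∈ insert j S, idx (f u) = some i := by simpa using hu
        by_cases huj : idx (f u) = some j
        · simp only [huj, if_true]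
          exact h4 u (by simpa using huj) r h hr hur
        · simp only [huj, if_false]
          exact hψ4 u (hmem u hu huj) r h hr hur
  obtain ⟨ψ, hψ1, hψ2, hψ3, hψ4⟩ := key univ
  have hm : ∀ u, ρ u = none → u ∈ univ.filter (fun u => ∃ j ∈ (univ : Finset (Fin q)),
      idx (f u) = some j) := by
    intro u hu
    obtain ⟨j, hj⟩ := hρi u hu
    simp only [mem_filter, mem_univ, true_and]
    exact ⟨j, hj⟩
  apply hG
  refine ⟨⟨⟨fun u => (ρ u).elim (ψ u) (fun h => (h : W)), ?_⟩, ?_⟩⟩
  · intro a b hab
    rcases ha : ρ a with _ | x
    · rcases hb : ρ b with _ | y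
      · simp only [Option.elim]
        exact hψ3 a (hm a ha) b (hm b hb) hab
      · simp only [Option.elim]
        exact hψ4 a (hm a ha) b y hb hab
    · rcases hb : ρ b with _ | y
      · simp only [Option.elim]
        exact (hψ4 b (hm b hb) a x ha hab.symm).symm
      · simp only [Option.elim]
        have h1 := (hfa a b hab).1
        rw [hρs a x ha, hρs b y hb] at h1
        exact h1
  · intro a b hab
    change (ρ a).elim (ψ a) (fun h => (h : W)) = (ρ b).elim (ψ b) (fun h => (h : W)) at hab
    rcases ha : ρ a with _ | x
    · rcases hb : ρ b with _ | y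
      · rw [ha, hb] at hab
        exact hψ1 (Finset.mem_coe.2 (hm a ha)) (Finset.mem_coe.2 (hm b hb)) hab
      · rw [ha, hb] at hab
        simp only [Option.elim] at hab
        exact absurd (hab ▸ hHY y.2) (hψ2 a (hm a ha))
    · rcases hb : ρ b with _ | y
      · rw [ha, hb] at hab
        simp only [Option.elim] at hab
        exact absurd (hab ▸ hHY x.2) (hψ2 b (hm b hb))
      · rw [ha, hb] at hab
        simp only [Option.elim] at hab
        apply hfi
        rw [hρs a x ha, hρs b y hb, Subtype.ext hab]

end amal

end H213F
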