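import Mathlib

namespace H213F

open SimpleGraph Finset Filter Topology

/-- A finite graph is r-degenerate when it has no (nonempty) induced subgraph in which every
vertex has degree greater than r. -/
def IsDegenerate (r : ℕ) {V : Type} (F : SimpleGraph V) : Prop :=
  ¬ ∃ s : Set V, s.Nonempty ∧ ∀ v ∈ s, r < {u | u ∈ s ∧ F.Adj v u}.ncard

/-- A sequence which is bounded, nonnegative and almost increasing converges. -/
theorem tendsto_of_almost (a : ℕ → ℝ) (C : ℝ) (hb : ∀ n, a n ≤ C) (h0 : ∀ n, 0 ≤ a n)
    (h : ∀ ε : ℝ, 0 < ε → ∃ N0 : ℕ, ∀ n, N0 ≤ n → ∃ M : ℕ, ∀ m, M ≤ m → a n - ε ≤ a m) :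
    ∃ L : ℝ, Tendsto a atTop (𝓝 L) := by
  have hbd : IsBoundedUnder (· ≤ ·) atTop a := ⟨C, eventually_map.2 (Eventually.of_forall hb)⟩
  have hbd2 : IsBoundedUnder (· ≥ ·) atTop a := ⟨0, eventually_map.2 (Eventually.of_forall h0)⟩
  refine ⟨limsup a atTop, ?_⟩
  rw [Metric.tendsto_atTop]
  intro ε hε
  obtain ⟨N0, hN0⟩ := h (ε / 3) (by positivity)
  have h1 : ∃ᶠ n in atTop, limsup a atTop - ε / 3 < a n :=
    frequently_lt_of_lt_limsup (hbd2.isCoboundedUnder_le) (by linarith)
  obtain ⟨n, hn, hna⟩ := (frequently_atTop.1 h1) N0
  obtain ⟨M, hM⟩ := hN0 n hn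
  have h2 : ∀ᶠ n in atTop, a n < limsup a atTop + ε / 3 :=
    eventually_lt_of_limsup_lt (by linarith) hbd
  obtain ⟨M2, hM2⟩ := eventually_atTop.1 h2
  refine ⟨max M M2, fun m hm => ?_⟩
  have e1 := hM m (le_trans (le_max_left _ _) hm)
  have e2 := hM2 m (le_trans (le_max_right _ _) hm)
  rw [Real.dist_eq, abs_lt]
  constructor <;> linarith

section embed

variable {V W : Type} [Fintype V] [Fintype W]

open scoped Classical in
/-- own degree -/
noncomputable def dg (G : SimpleGraph W) (a : W) : ℕ := (univ.filter (fun b => G.Adj a b)).card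

open scoped Classical in
theorem exists_embed (F : SimpleGraph V) (hF : IsDegenerate 1 F) (G : SimpleGraph W) [Nonempty W]
    (hd : ∀ w, Fintype.card V ≤ dg G w) : F ⊑ G := by
  have key : ∀ n : ℕ, ∀ s : Finset V, s.card = n → ∃ φ : V → W, Set.InjOn φ s ∧
      ∀ u ∈ s, ∀ v ∈ s, F.Adj u v → G.Adj (φ u) (φ v) := by
    intro n
    induction n with
    | zero =>
      intro s hs
      rw [Finset.card_eq_zero] at hs
      subst hs
      exact ⟨fun _ => Classical.arbitrary W, by simp, by simp⟩
    | succ n ih =>
      intro s hs
      have hne : s.Nonempty := by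
        rw [← Finset.card_pos]; omega
      have : ∃ v ∈ s, {u | u ∈ (s : Set V) ∧ F.Adj v u}.ncard ≤ 1 := by
        by_contra hcon
        push Not at hcon
        exact hF ⟨s, by simpa using hne, fun v hv => hcon v (by simpa using hv)⟩
      obtain ⟨v, hv, hv1⟩ := this
      obtain ⟨φ, hφi, hφ⟩ := ih (s.erase v) (by rw [Finset.card_erase_of_mem hv]; omega)
      have hw0 : ∃ w0 : W, ∀ u ∈ s.erase v, F.Adj v u → φ u = w0 := by
        by_cases hex : ∃ u ∈ s.erase v, F.Adj v u
        · obtain ⟨u, hu, huv⟩ := hex
          refine ⟨φ u, fun u' hu' huv' => ?_⟩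
          have : u' = u := by
            have hfin : {u | u ∈ (s : Set V) ∧ F.Adj v u}.Finite := Set.toFinite _
            rw [Set.ncard_le_one hfin] at hv1
            exact hv1 u' ⟨by simpa using Finset.mem_of_mem_erase hu', huv'⟩ u
              ⟨by simpa using Finset.mem_of_mem_erase hu, huv⟩
          rw [this]
        · push Not at hex
          exact ⟨Classical.arbitrary W, fun u hu huv => absurd huv (hex u hu)⟩
      obtain ⟨w0, hw0⟩ := hw0
      have hlt : ((s.erase v).image φ).card < (univ.filter (fun b => G.Adj w0 b)).card := by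
        have h1 : ((s.erase v).image φ).card ≤ (s.erase v).card := Finset.card_image_le
        have h2 : (s.erase v).card < s.card := Finset.card_erase_lt_of_mem hv
        have h3 : s.card ≤ Fintype.card V := Finset.card_le_univ s
        have h4 : Fintype.card V ≤ (univ.filter (fun b => G.Adj w0 b)).card := by
          have := hd w0
          unfold dg at this
          exact this
        omega
      obtain ⟨w, hw1, hw2⟩ := Finset.exists_mem_notMem_of_card_lt_card hlt
      have hw1' : G.Adj w0 w := by simpa using hw1
      have hw2' : ∀ u ∈ s.erase v, φ u ≠ w := by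
        intro u hu he
        exact hw2 (Finset.mem_image.2 ⟨u, hu, he⟩)
      refine ⟨Function.update φ v w, ?_, ?_⟩
      · intro a ha b hb hab
        have ha : a ∈ s := by simpa using ha
        have hb : b ∈ s := by simpa using hb
        by_cases hav : a = v
        · by_cases hbv : b = v
          · rw [hav, hbv]
          · subst hav
            rw [Function.update_self, Function.update_of_ne hbv] at hab
            exact absurd hab.symm (hw2' b (Finset.mem_erase.2 ⟨hbv, hb⟩))
        · by_cases hbv : b = v
          · subst hbv
            rw [Function.update_self, Function.update_of_ne hav] at hab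
            exact absurd hab (hw2' a (Finset.mem_erase.2 ⟨hav, ha⟩))
          · rw [Function.update_of_ne hav, Function.update_of_ne hbv] at hab
            exact hφi (Finset.mem_coe.2 (Finset.mem_erase.2 ⟨hav, ha⟩))
              (Finset.mem_coe.2 (Finset.mem_erase.2 ⟨hbv, hb⟩)) hab
      · intro a ha b hb hab
        by_cases hav : a = v
        · have hbv : b ≠ v := by
            rintro rfl
            rw [hav] at hab
            exact hab.ne rfl
          subst hav
          rw [Function.update_self, Function.update_of_ne hbv,
            hw0 b (Finset.mem_erase.2 ⟨hbv, hb⟩) hab]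
          exact hw1'.symm
        · by_cases hbv : b = v
          · subst hbv
            rw [Function.update_self, Function.update_of_ne hav,
              hw0 a (Finset.mem_erase.2 ⟨hav, ha⟩) hab.symm]
            exact hw1'
          · rw [Function.update_of_ne hav, Function.update_of_ne hbv]
            exact hφ a (Finset.mem_erase.2 ⟨hav, ha⟩) b (Finset.mem_erase.2 ⟨hbv, hb⟩) hab
  obtain ⟨φ, hφi, hφ⟩ := key _ univ rfl
  exact ⟨⟨⟨φ, fun {a b} h => hφ a (mem_univ _) b (mem_univ _) h⟩,
    fun a b h => hφi (by simp) (by simp) h⟩⟩

end embed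

open scoped Classical in
/-- linear bound for 1-degenerate graphs -/
theorem ext_le {V : Type} [Fintype V] (F : SimpleGraph V) (hF : IsDegenerate 1 F) (n : ℕ) :
    extremalNumber n F ≤ Fintype.card V * n := by
  induction n with
  | zero =>
    have := (extremalNumber_le_iff (V := Fin 0) F 0).2 (by
      intro G _ _
      rw [Nat.le_zero, Finset.card_eq_zero]
      ext e
      induction e using Sym2.ind with
      | _ x y => exact x.elim0)
    simpa using this
  | succ n ih =>
    have h := (extremalNumber_le_iff (V := Fin (n + 1)) F (Fintype.card V * (n + 1))).2 (by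
      intro G _ hG
      by_contra hcon
      push Not at hcon
      have hex : ∃ v : Fin (n + 1), G.degree v < Fintype.card V := by
        by_contra hc
        push Not at hc
        apply hG
        apply exists_embed F hF G
        intro w
        refine (hc w).trans (le_of_eq ?_)
        unfold dg
        rw [← SimpleGraph.card_neighborFinset_eq_degree]
        congr 1
        ext x
        simp
      obtain ⟨v, hv⟩ := hex
      have h1 := card_edgeFinset_deleteIncidenceSet_le_extremalNumber hG v
      rw [card_edgeFinset_deleteIncidenceSet] at h1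
      simp only [Fintype.card_fin, Nat.add_sub_cancel] at h1
      have : Fintype.card V * (n + 1) = Fintype.card V * n + Fintype.card V := by ring
      omega)
    simpa using h

end H213F
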