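import Pool.Agent.Helper213.Forest.Amalgam

namespace H213F

open SimpleGraph Finset Filter Topology

variable {V W : Type} [Fintype V] [Fintype W]

open scoped Classical in
/-- ordered adjacent pairs -/
noncomputable def pr (G : SimpleGraph W) : Finset (W × W) :=
  univ.filter (fun p : W × W => G.Adj p.1 p.2)

open scoped Classical in
theorem card_pr (G : SimpleGraph W) : (pr G).card = ∑ a, dg G a := by
  unfold pr dg
  rw [Finset.card_filter, Fintype.sum_prod_type]
  apply Finset.sum_congr rfl
  intro a _
  rw [Finset.card_filter]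

open scoped Classical in
theorem card_pr_edge (G : SimpleGraph W) [DecidableRel G.Adj] :
    (pr G).card = 2 * G.edgeFinset.card := by
  rw [card_pr, ← SimpleGraph.sum_degrees_eq_twice_card_edges]
  apply Finset.sum_congr rfl
  intro a _
  unfold dg
  rw [← SimpleGraph.card_neighborFinset_eq_degree]
  congr 1
  ext x
  simp

open scoped Classical in
theorem card_pr_first (G : SimpleGraph W) (Z : Finset W) :
    ((pr G).filter (fun p => p.1 ∈ Z)).card = ∑ a ∈ Z, dg G a := by
  unfold pr dg
  rw [Finset.filter_filter, Finset.card_filter, Fintype.sum_prod_type,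
    ← Finset.sum_subset (Finset.subset_univ Z)]
  · apply Finset.sum_congr rfl
    intro a ha
    rw [Finset.card_filter]
    apply Finset.sum_congr rfl
    intro b _
    simp [ha]
  · intro a _ ha
    simp [ha]

open scoped Classical in
theorem card_pr_second (G : SimpleGraph W) (Z : Finset W) :
    ((pr G).filter (fun p => p.2 ∈ Z)).card = ∑ a ∈ Z, dg G a := by
  rw [← card_pr_first]
  apply Finset.card_bij (fun p _ => (p.2, p.1))
  · intro p hp
    simp only [pr, mem_filter, mem_univ, true_and] at hp ⊢
    exact ⟨hp.1.symm, hp.2⟩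
  · intro p _ p' _ h
    simp only [Prod.mk.injEq] at h
    exact Prod.ext h.2 h.1
  · intro p hp
    refine ⟨(p.2, p.1), ?_, rfl⟩
    simp only [pr, mem_filter, mem_univ, true_and] at hp ⊢
    exact ⟨hp.1.symm, hp.2⟩

open scoped Classical in
/-- the pairs of G which survive in a copy -/
noncomputable def sur (G : SimpleGraph W) (H D : Finset W) : Finset (W × W) :=
  (pr G).filter (fun p => p.1 ∈ H ∪ D ∧ p.2 ∈ H ∪ D ∧ ¬ (p.1 ∈ H ∧ p.2 ∈ H))

open scoped Classical in
theorem card_sur_ge (G : SimpleGraph W) (H D : Finset W) :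
    (pr G).card ≤ (sur G H D).card + 2 * ∑ a ∈ (H ∪ D)ᶜ, dg G a + H.card * H.card := by
  have h1 : pr G ⊆ sur G H D ∪ ((pr G).filter (fun p => p.1 ∈ (H ∪ D)ᶜ) ∪
      ((pr G).filter (fun p => p.2 ∈ (H ∪ D)ᶜ) ∪ H ×ˢ H)) := by
    intro p hp
    by_cases h1 : p.1 ∈ (H ∪ D)ᶜ
    · exact Finset.mem_union_right _ (Finset.mem_union_left _ (Finset.mem_filter.2 ⟨hp, h1⟩))
    · by_cases h2 : p.2 ∈ (H ∪ D)ᶜ
      · exact Finset.mem_union_right _ (Finset.mem_union_right _ (Finset.mem_union_left _
          (Finset.mem_filter.2 ⟨hp, h2⟩)))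
      · by_cases h3 : p.1 ∈ H ∧ p.2 ∈ H
        · exact Finset.mem_union_right _ (Finset.mem_union_right _ (Finset.mem_union_right _
            (Finset.mem_product.2 h3)))
        · rw [Finset.mem_compl, not_not] at h1 h2
          exact Finset.mem_union_left _ (Finset.mem_filter.2 ⟨hp, h1, h2, h3⟩)
  have h2 := Finset.card_le_card h1
  have h3 := Finset.card_union_le (sur G H D) ((pr G).filter (fun p => p.1 ∈ (H ∪ D)ᶜ) ∪
      ((pr G).filter (fun p => p.2 ∈ (H ∪ D)ᶜ) ∪ H ×ˢ H))
  have h4 := Finset.card_union_le ((pr G).filter (fun p => p.1 ∈ (H ∪ D)ᶜ))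
      ((pr G).filter (fun p => p.2 ∈ (H ∪ D)ᶜ) ∪ H ×ˢ H)
  have h5 := Finset.card_union_le ((pr G).filter (fun p => p.2 ∈ (H ∪ D)ᶜ)) (H ×ˢ H)
  rw [Finset.card_product] at h5
  rw [card_pr_first] at h4
  rw [card_pr_second] at h5
  omega

open scoped Classical in
theorem card_amal (G : SimpleGraph W) (H D : Finset W) (q : ℕ) :
    q * (sur G H D).card ≤ (pr (amal G H D q)).card := by
  have h1 : ((univ : Finset (Fin q)).image some) ×ˢ sur G H D ⊆
      (pr (amal G H D q)).image
        (fun p => ((idx p.1).orElse (fun _ => idx p.2), (prj p.1, prj p.2))) := by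
    rintro ⟨o, a, b⟩ hp
    rw [Finset.mem_product] at hp
    obtain ⟨ho, hab⟩ := hp
    simp only [Finset.mem_image, mem_univ, true_and] at ho
    obtain ⟨j, rfl⟩ := ho
    simp only [sur, pr, mem_filter, mem_univ, true_and, Finset.mem_union] at hab
    obtain ⟨hadj, ha, hb, hnot⟩ := hab
    rw [Finset.mem_image]
    by_cases haH : a ∈ H
    · have hbD : b ∈ D := by
        rcases hb with hb | hb
        · exact absurd ⟨haH, hb⟩ hnot
        · exact hb
      refine ⟨(Sum.inl ⟨a, haH⟩, Sum.inr (j, ⟨b, hbD⟩)), ?_, ?_⟩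
      · refine Finset.mem_filter.2 ⟨mem_univ _, ?_⟩
        refine ⟨hadj, ?_⟩
        intro i i' hi
        simp [idx] at hi
      · simp [idx, prj]
    · have haD : a ∈ D := by
        rcases ha with ha | ha
        · exact absurd ha haH
        · exact ha
      by_cases hbH : b ∈ H
      · refine ⟨(Sum.inr (j, ⟨a, haD⟩), Sum.inl ⟨b, hbH⟩), ?_, ?_⟩
        · refine Finset.mem_filter.2 ⟨mem_univ _, ?_⟩
          refine ⟨hadj, ?_⟩
          intro i i' hi hi'
          simp [idx] at hi'
        · simp [idx, prj]
      · have hbD : b ∈ D := by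
          rcases hb with hb | hb
          · exact absurd hb hbH
          · exact hb
        refine ⟨(Sum.inr (j, ⟨a, haD⟩), Sum.inr (j, ⟨b, hbD⟩)), ?_, ?_⟩
        · refine Finset.mem_filter.2 ⟨mem_univ _, ?_⟩
          refine ⟨hadj, ?_⟩
          intro i i' hi hi'
          simp only [idx, Option.some.injEq] at hi hi'
          rw [← hi, ← hi']
        · simp [idx, prj]
  have h2 := (Finset.card_le_card h1).trans Finset.card_image_le
  rw [Finset.card_product, Finset.card_image_of_injective _ (Option.some_injective _),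
    Finset.card_univ, Fintype.card_fin] at h2
  exact h2

/-- the graph with one more isolated vertex -/
def isoAdd (G : SimpleGraph W) : SimpleGraph (Option W) where
  Adj a b := ∃ x y, a = some x ∧ b = some y ∧ G.Adj x y
  symm := ⟨fun _ _ ⟨x, y, hx, hy, h⟩ => ⟨y, x, hy, hx, h.symm⟩⟩
  loopless := ⟨fun _ ⟨x, y, hx, hy, h⟩ => by
    rw [hx] at hy
    rw [Option.some.inj hy] at h
    exact G.loopless.irrefl _ h⟩

open scoped Classical in
theorem isoAdd_free (F : SimpleGraph V) (G : SimpleGraph W) (hG : F.Free G)
    (hn : Fintype.card V ≤ Fintype.card W) : F.Free (isoAdd G) := by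
  rintro ⟨f⟩
  have hfi : Function.Injective f := f.injective
  have hfa : ∀ u v, F.Adj u v → ∃ x y, f u = some x ∧ f v = some y ∧ G.Adj x y := by
    intro u v huv
    exact f.toHom.map_adj huv
  apply hG
  by_cases hnone : ∃ u0, f u0 = none
  · obtain ⟨u0, hu0⟩ := hnone
    have hlt : ((univ.erase u0).image (fun u => f u)).card <
        ((univ : Finset W).image some).card := by
      rw [Finset.card_image_of_injective _ hfi, Finset.card_image_of_injective _
        (Option.some_injective _), Finset.card_erase_of_mem (mem_univ _), Finset.card_univ,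
        Finset.card_univ]
      have : 0 < Fintype.card V := Fintype.card_pos_iff.2 ⟨u0⟩
      omega
    obtain ⟨x, hx1, hx2⟩ := Finset.exists_mem_notMem_of_card_lt_card hlt
    rw [Finset.mem_image] at hx1
    obtain ⟨w, _, rfl⟩ := hx1
    have hw : ∀ u, f u ≠ some w := by
      intro u hu
      by_cases huu : u = u0
      · rw [huu, hu0] at hu
        exact absurd hu (by simp)
      · exact hx2 (Finset.mem_image.2 ⟨u, Finset.mem_erase.2 ⟨huu, mem_univ _⟩, hu⟩)
    refine ⟨⟨⟨fun u => (f u).getD w, ?_⟩, ?_⟩⟩
    · intro a b hab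
      obtain ⟨x, y, hx, hy, hxy⟩ := hfa a b hab
      show G.Adj ((f a).getD w) ((f b).getD w)
      rw [hx, hy]
      exact hxy
    · intro a b hab
      change (f a).getD w = (f b).getD w at hab
      apply hfi
      rcases ha : f a with _ | x
      · rcases hb : f b with _ | y
        · rfl
        · rw [ha, hb] at hab
          simp only [Option.getD] at hab
          rw [← hab] at hb
          exact absurd hb (hw b)
      · rcases hb : f b with _ | y
        · rw [ha, hb] at hab
          simp only [Option.getD] at hab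
          rw [hab] at ha
          exact absurd ha (hw a)
        · rw [ha, hb] at hab
          simp only [Option.getD] at hab
          rw [hab]
  · push Not at hnone
    have hs : ∀ u, ∃ w, f u = some w := fun u => Option.ne_none_iff_exists'.1 (hnone u)
    choose g hg using hs
    refine ⟨⟨⟨g, ?_⟩, ?_⟩⟩
    · intro a b hab
      obtain ⟨x, y, hx, hy, hxy⟩ := hfa a b hab
      rw [hg a] at hx
      rw [hg b] at hy
      rw [Option.some.inj hx, Option.some.inj hy]
      exact hxy
    · intro a b hab
      apply hfi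
      change g a = g b at hab
      rw [hg a, hg b, hab]

open scoped Classical in
theorem isoAdd_pr (G : SimpleGraph W) : (pr G).card ≤ (pr (isoAdd G)).card := by
  apply Finset.card_le_card_of_injOn (fun p => (some p.1, some p.2))
  · intro p hp
    have hp : G.Adj p.1 p.2 := (Finset.mem_filter.1 hp).2
    exact Finset.mem_coe.2 (Finset.mem_filter.2 ⟨mem_univ _, p.1, p.2, rfl, rfl, hp⟩)
  · intro p _ p' _ h
    simp only [Prod.mk.injEq, Option.some.injEq] at h
    exact Prod.ext h.1 h.2

open scoped Classical in
theorem ext_ge (F : SimpleGraph V) (G : SimpleGraph W) (hG : F.Free G) (n : ℕ)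
    (hn : Fintype.card W = n) : (pr G).card ≤ 2 * extremalNumber n F := by
  rw [card_pr_edge]
  have := card_edgeFinset_le_extremalNumber hG
  rw [hn] at this
  omega

open scoped Classical in
theorem ext_attained (F : SimpleGraph V) (n : ℕ) (h0 : 0 < extremalNumber n F) :
    ∃ G : SimpleGraph (Fin n), F.Free G ∧ 2 * extremalNumber n F ≤ (pr G).card := by
  have h1 : extremalNumber n F - 1 < extremalNumber (Fintype.card (Fin n)) F := by
    rw [Fintype.card_fin]
    omega
  obtain ⟨G, _, hG, hlt⟩ := (lt_extremalNumber_iff F _).1 h1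
  refine ⟨G, hG, ?_⟩
  rw [card_pr_edge]
  omega

/-- adding isolated vertices does not decrease the extremal number -/
theorem ext_mono (F : SimpleGraph V) (n : ℕ) (hn : Fintype.card V ≤ n) :
    extremalNumber n F ≤ extremalNumber (n + 1) F := by
  rcases Nat.eq_zero_or_pos (extremalNumber n F) with h0 | h0
  · omega
  · obtain ⟨G, hG, hle⟩ := ext_attained F n h0
    have h1 := isoAdd_free F G hG (by rw [Fintype.card_fin]; exact hn)
    have h2 := isoAdd_pr G
    have h3 := ext_ge F (isoAdd G) h1 (n + 1) (by rw [Fintype.card_option, Fintype.card_fin])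
    omega

theorem ext_mono' (F : SimpleGraph V) (n m : ℕ) (hn : Fintype.card V ≤ n) (hnm : n ≤ m) :
    extremalNumber n F ≤ extremalNumber m F := by
  induction m, hnm using Nat.le_induction with
  | base => exact le_rfl
  | succ m hm ih => exact ih.trans (ext_mono F m (hn.trans hm))

end H213F
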