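import Pool.Agent.Helper213.Forest.Count

namespace H213F

open SimpleGraph Finset Filter Topology

theorem exists_seq (Φ : ℝ → ℝ) (hΦ : ∀ x, 0 < x → 0 ≤ Φ x) (ε : ℝ) (hε : 0 < ε) :
    ∃ d : ℕ → ℝ, (∀ i, 0 < d i) ∧ (∀ i, d (i + 1) ≤ d i) ∧ ∀ i, Φ (d i) * d (i + 1) ≤ ε := by
  let g : ℕ → {x : ℝ // 0 < x} := fun i => Nat.rec ⟨1, one_pos⟩
    (fun _ x => ⟨min x.1 (ε / (Φ x.1 + 1)),
      lt_min x.2 (div_pos hε (by have := hΦ x.1 x.2; linarith))⟩) i
  refine ⟨fun i => (g i).1, fun i => (g i).2, fun i => min_le_left _ _, fun i => ?_⟩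
  have h1 : (g (i + 1)).1 ≤ ε / (Φ (g i).1 + 1) := min_le_right _ _
  have h2 := hΦ (g i).1 (g i).2
  have h3 := (g (i + 1)).2
  calc Φ (g i).1 * (g (i + 1)).1 ≤ (Φ (g i).1 + 1) * (ε / (Φ (g i).1 + 1)) :=
        mul_le_mul (by linarith) h1 h3.le (by linarith)
    _ = ε := by field_simp

variable {V : Type} [Fintype V]

open scoped Classical in
theorem core_step {W : Type} [Fintype W] [Nonempty W] (F : SimpleGraph V) (G : SimpleGraph W)
    (hG : F.Free G) (n : ℕ) (hW : Fintype.card W = n) (hn1 : 1 ≤ n)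
    (hlin : ∀ n, extremalNumber n F ≤ Fintype.card V * n)
    (ε : ℝ) (hε : 0 < ε) (d : ℕ → ℝ) (hd0 : ∀ i, 0 < d i) (hdm : ∀ i, d (i + 1) ≤ d i)
    (hdΦ : ∀ i, (Fintype.card V : ℝ) * (2 ^ (Fintype.card V) *
      (2 * (Fintype.card V : ℝ) / d i + 1) ^ (Fintype.card V)) * d (i + 1) ≤ ε)
    (I : ℕ) (hI : 2 * (Fintype.card V : ℝ) / ε ≤ I) (N0 : ℕ) (hn : N0 ≤ n)
    (hN0 : (2 * (Fintype.card V : ℝ) / d (I + 1)) ^ 2 / ε ≤ N0)
    (hx : 0 < ((pr G).card - 5 * ε * n : ℝ)) :
      ∃ h v : ℕ, 1 ≤ v ∧ v ≤ n ∧ ∀ q : ℕ,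
        (q : ℝ) * ((pr G).card - 5 * ε * n) ≤ 2 * extremalNumber (h + q * v) F := by
  have hanti : Antitone d := antitone_nat_of_succ_le hdm
  have hnr : (1 : ℝ) ≤ n := by exact_mod_cast hn1
  set k : ℕ := Fintype.card V with hk
  have hT : ((∑ a, dg G a : ℕ) : ℝ) ≤ 2 * k * n := by
    have h1 := ext_ge F G hG n hW
    have h2 := hlin n
    rw [card_pr] at h1
    have h3 : (∑ a, dg G a) ≤ 2 * (k * n) := by omega
    calc ((∑ a, dg G a : ℕ) : ℝ) ≤ ((2 * (k * n) : ℕ) : ℝ) := by exact_mod_cast h3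
      _ = 2 * k * n := by push_cast; ring
  set Hs : ℕ → Finset W := fun i => univ.filter (fun a => d i * n ≤ dg G a) with hHs
  set S : ℕ → ℝ := fun i => ((∑ a ∈ Hs i, dg G a : ℕ) : ℝ) with hS
  have hST : ∀ i, S i ≤ 2 * k * n := by
    intro i
    refine le_trans ?_ hT
    simp only [hS]
    exact_mod_cast Finset.sum_le_sum_of_subset (Finset.subset_univ _)
  have hS0 : ∀ i, 0 ≤ S i := fun i => Nat.cast_nonneg _
  obtain ⟨i, hiI, hi⟩ : ∃ i < I + 1, S (i + 1) - S i ≤ ε * n := by
    by_contra hcon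
    push Not at hcon
    have h1 : ∑ i ∈ Finset.range (I + 1), (S (i + 1) - S i) = S (I + 1) - S 0 :=
      Finset.sum_range_sub S (I + 1)
    have h2 : ∑ i ∈ Finset.range (I + 1), (ε * n) ≤ ∑ i ∈ Finset.range (I + 1), (S (i + 1) - S i) :=
      Finset.sum_le_sum (fun i hi => (hcon i (Finset.mem_range.1 hi)).le)
    rw [Finset.sum_const, Finset.card_range, nsmul_eq_mul, h1] at h2
    have h3 := hST (I + 1)
    have h4 := hS0 0
    have h5 : 2 * (k : ℝ) ≤ I * ε := by
      rw [div_le_iff₀ hε] at hI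
      exact hI
    have h6 : 2 * (k : ℝ) * n ≤ I * ε * n := mul_le_mul_of_nonneg_right h5 (by linarith)
    push_cast at h2
    have h7 : 0 < ε * n := by positivity
    nlinarith
  have hHY : Hs i ⊆ Hs (i + 1) := by
    intro a ha
    simp only [hHs, mem_filter, mem_univ, true_and] at ha ⊢
    exact (mul_le_mul_of_nonneg_right (hdm i) (by linarith)).trans ha
  have hHc : ((Hs i).card : ℝ) ≤ 2 * k / d i := by
    rw [le_div_iff₀ (hd0 i)]
    have h1 : ((Hs i).card : ℝ) * (d i * n) ≤ S i := by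
      simp only [hS]
      push_cast
      rw [← nsmul_eq_mul]
      apply Finset.card_nsmul_le_sum
      intro a ha
      simp only [hHs, mem_filter, mem_univ, true_and] at ha
      exact ha
    have h2 := hST i
    have h3 : ((Hs i).card : ℝ) * d i * n ≤ 2 * k * n := by linarith
    exact le_of_mul_le_mul_right h3 (by linarith)
  set H := Hs i with hH
  set Y := Hs (i + 1) with hY
  obtain ⟨X, hX, hrob⟩ := exists_kill (P := Finset V × (V → Option H)) (W := W) k
    (fun p Z => ∃ ψ, IsOcc F G p.2 p.1 (Y ∪ Z) ψ) (by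
      rintro p Z Z' hZ ⟨ψ, h1, h2, h3, h4⟩
      exact ⟨ψ, h1, fun u hu hc => h2 u hu (Finset.union_subset_union_right hZ hc), h3, h4⟩)
  have hXc : (X.card : ℝ) * d (i + 1) ≤ ε := by
    have h1 : (X.card : ℝ) ≤ k * (2 ^ k * (2 * k / d i + 1) ^ k) := by
      have h2 : Fintype.card (Finset V × (V → Option H)) = 2 ^ k * (H.card + 1) ^ k := by
        rw [Fintype.card_prod, Fintype.card_finset, Fintype.card_fun, Fintype.card_option,
          Fintype.card_coe]
      rw [h2] at hX
      calc (X.card : ℝ) ≤ ((k * (2 ^ k * (H.card + 1) ^ k) : ℕ) : ℝ) := by exact_mod_cast hX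
        _ = k * (2 ^ k * ((H.card : ℝ) + 1) ^ k) := by push_cast; ring
        _ ≤ k * (2 ^ k * (2 * k / d i + 1) ^ k) := by
            have h3 : ((H.card : ℝ) + 1) ^ k ≤ (2 * k / d i + 1) ^ k :=
              pow_le_pow_left₀ (by positivity) (by linarith) k
            have h4 : (2 : ℝ) ^ k * ((H.card : ℝ) + 1) ^ k ≤ 2 ^ k * (2 * k / d i + 1) ^ k :=
              mul_le_mul_of_nonneg_left h3 (by positivity)
            exact mul_le_mul_of_nonneg_left h4 (by positivity)
    exact (mul_le_mul_of_nonneg_right h1 (hd0 (i + 1)).le).trans (hdΦ i)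
  set D := (Y ∪ X)ᶜ with hD
  have hlost : ((∑ a ∈ (H ∪ D)ᶜ, dg G a : ℕ) : ℝ) ≤ 2 * ε * n := by
    have hsub : (H ∪ D)ᶜ ⊆ (Y \ H) ∪ (X \ Y) := by
      intro a ha
      rw [Finset.mem_compl, Finset.mem_union, not_or] at ha
      obtain ⟨ha1, ha2⟩ := ha
      rw [hD, Finset.mem_compl, not_not, Finset.mem_union] at ha2
      rw [Finset.mem_union, Finset.mem_sdiff, Finset.mem_sdiff]
      by_cases haY : a ∈ Y
      · exact Or.inl ⟨haY, ha1⟩
      · rcases ha2 with h | h
        · exact absurd h haY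
        · exact Or.inr ⟨h, haY⟩
    have h1 : ∑ a ∈ (H ∪ D)ᶜ, dg G a ≤ ∑ a ∈ Y \ H, dg G a + ∑ a ∈ X \ Y, dg G a :=
      (Finset.sum_le_sum_of_subset hsub).trans (by
        rw [Finset.sum_union (by
          rw [Finset.disjoint_left]
          intro a ha hb
          exact (Finset.mem_sdiff.1 hb).2 (Finset.mem_sdiff.1 ha).1)])
    have h2 : ((∑ a ∈ Y \ H, dg G a : ℕ) : ℝ) = S (i + 1) - S i := by
      have : ∑ a ∈ Y \ H, dg G a + ∑ a ∈ H, dg G a = ∑ a ∈ Y, dg G a := Finset.sum_sdiff hHY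
      simp only [hS]
      rw [← hH, ← hY, ← this]
      push_cast
      ring
    have h3 : ((∑ a ∈ X \ Y, dg G a : ℕ) : ℝ) ≤ X.card * (d (i + 1) * n) := by
      push_cast
      calc ∑ a ∈ X \ Y, (dg G a : ℝ) ≤ ∑ a ∈ X \ Y, (d (i + 1) * n) := by
            apply Finset.sum_le_sum
            intro a ha
            have := (Finset.mem_sdiff.1 ha).2
            simp only [hY, hHs, mem_filter, mem_univ, true_and, not_le] at this
            exact this.le
        _ = ((X \ Y).card : ℝ) * (d (i + 1) * n) := by rw [Finset.sum_const, nsmul_eq_mul]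
        _ ≤ X.card * (d (i + 1) * n) := by
            apply mul_le_mul_of_nonneg_right
            · exact_mod_cast Finset.card_le_card Finset.sdiff_subset
            · have := (hd0 (i + 1)).le
              positivity
    have h4 : (X.card : ℝ) * (d (i + 1) * n) ≤ ε * n := by
      rw [← mul_assoc]
      exact mul_le_mul_of_nonneg_right hXc (by linarith)
    have h5 : ((∑ a ∈ (H ∪ D)ᶜ, dg G a : ℕ) : ℝ) ≤
        ((∑ a ∈ Y \ H, dg G a + ∑ a ∈ X \ Y, dg G a : ℕ) : ℝ) := by exact_mod_cast h1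
    rw [Nat.cast_add, h2] at h5
    linarith
  have hHH : (H.card : ℝ) * H.card ≤ ε * n := by
    have h1 : 2 * (k : ℝ) / d i ≤ 2 * k / d (I + 1) := by
      apply div_le_div_of_nonneg_left (by positivity) (hd0 _)
      exact hanti (by omega)
    have h2 : (H.card : ℝ) ≤ 2 * k / d (I + 1) := hHc.trans h1
    have h3 : (H.card : ℝ) * H.card ≤ (2 * k / d (I + 1)) ^ 2 := by
      rw [sq]
      exact mul_le_mul h2 h2 (by positivity) (le_trans (by positivity) h2)
    rw [div_le_iff₀ hε] at hN0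
    have h4 : (N0 : ℝ) * ε ≤ n * ε := by
      apply mul_le_mul_of_nonneg_right _ hε.le
      exact_mod_cast hn
    linarith
  have hsur : ((pr G).card - 5 * ε * n : ℝ) ≤ (sur G H D).card := by
    have h1 := card_sur_ge G H D
    have h2 : ((pr G).card : ℝ) ≤ (sur G H D).card +
        2 * ((∑ a ∈ (H ∪ D)ᶜ, dg G a : ℕ) : ℝ) + H.card * H.card := by
      exact_mod_cast h1
    linarith
  have hDne : 1 ≤ D.card := by
    rw [Nat.one_le_iff_ne_zero]
    intro hD0
    rw [Finset.card_eq_zero] at hD0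
    have h1 : (0 : ℝ) < (sur G H D).card := lt_of_lt_of_le hx hsur
    have h2 : 0 < (sur G H D).card := by exact_mod_cast h1
    obtain ⟨p, hp⟩ := Finset.card_pos.1 h2
    have hp2 := (Finset.mem_filter.1 hp).2
    rw [hD0, Finset.union_empty] at hp2
    exact hp2.2.2 ⟨hp2.1, hp2.2.1⟩
  refine ⟨H.card, D.card, hDne, ?_, ?_⟩
  · have := Finset.card_le_univ D
    rwa [hW] at this
  · intro q
    have hfree : F.Free (amal G H D q) := amal_free F G hG H Y X hHY (by
      intro ρ K hocc B hB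
      exact hrob (K, ρ) hocc B hB) q
    have h1 := card_amal G H D q
    have h2 := ext_ge F (amal G H D q) hfree (H.card + q * D.card) (by
      rw [Fintype.card_sum, Fintype.card_prod, Fintype.card_fin, Fintype.card_coe,
        Fintype.card_coe])
    have h3 : q * (sur G H D).card ≤ 2 * extremalNumber (H.card + q * D.card) F := h1.trans h2
    calc (q : ℝ) * ((pr G).card - 5 * ε * n) ≤ q * (sur G H D).card :=
          mul_le_mul_of_nonneg_left hsur (by positivity)
      _ ≤ 2 * extremalNumber (H.card + q * D.card) F := by exact_mod_cast h3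

theorem main_step (F : SimpleGraph V) (hlin : ∀ n, extremalNumber n F ≤ Fintype.card V * n)
    (ε : ℝ) (hε : 0 < ε) :
    ∃ N0 : ℕ, ∀ n, N0 ≤ n → (extremalNumber n F : ℝ) / n ≤ 5 / 2 * ε ∨
      ∃ h v : ℕ, 1 ≤ v ∧ v ≤ n ∧ 1 ≤ n ∧ ∀ q : ℕ,
        (q : ℝ) * (2 * extremalNumber n F - 5 * ε * n) ≤ 2 * extremalNumber (h + q * v) F := by
  obtain ⟨d, hd0, hdm, hdΦ⟩ := exists_seq (fun x => (Fintype.card V : ℝ) *
      (2 ^ (Fintype.card V) * (2 * (Fintype.card V : ℝ) / x + 1) ^ (Fintype.card V)))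
    (fun x hx => by positivity) ε hε
  obtain ⟨I, hI⟩ := exists_nat_ge (2 * (Fintype.card V : ℝ) / ε)
  obtain ⟨N0, hN0⟩ := exists_nat_ge ((2 * (Fintype.card V : ℝ) / d (I + 1)) ^ 2 / ε)
  refine ⟨N0 + 1, fun n hn => ?_⟩
  have hn1 : 1 ≤ n := by omega
  have hnr : (1 : ℝ) ≤ n := by exact_mod_cast hn1
  rcases Nat.eq_zero_or_pos (extremalNumber n F) with h0 | h0
  · left
    rw [h0]
    simp only [Nat.cast_zero, zero_div]
    positivity
  obtain ⟨G, hG, hGe⟩ := ext_attained F n h0
  by_cases hx : (2 * extremalNumber n F - 5 * ε * n : ℝ) ≤ 0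
  · left
    rw [div_le_iff₀ (by linarith)]
    linarith
  push Not at hx
  right
  have : Nonempty (Fin n) := ⟨⟨0, by omega⟩⟩
  have hGr : (2 * extremalNumber n F : ℝ) ≤ (pr G).card := by exact_mod_cast hGe
  obtain ⟨h, v, hv1, hvn, hq⟩ := core_step F G hG n (Fintype.card_fin n) hn1 hlin ε hε d hd0 hdm
    hdΦ I hI N0 (by omega) hN0 (by linarith)
  refine ⟨h, v, hv1, hvn, hn1, fun q => (mul_le_mul_of_nonneg_left ?_ (by positivity)).trans (hq q)⟩
  linarith

theorem limit_exists (F : SimpleGraph V) (hlin : ∀ n, extremalNumber n F ≤ Fintype.card V * n) :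
    ∃ L : ℝ, Tendsto (fun n : ℕ => (extremalNumber n F : ℝ) / n) atTop (𝓝 L) := by
  set k : ℕ := Fintype.card V with hk
  have hup : ∀ n : ℕ, (extremalNumber n F : ℝ) / n ≤ k := by
    intro n
    rcases Nat.eq_zero_or_pos n with h | h
    · subst h
      simp
    · rw [div_le_iff₀ (by exact_mod_cast h)]
      exact_mod_cast hlin n
  apply tendsto_of_almost _ k hup (fun n => by positivity)
  intro ε hε
  obtain ⟨N0, hN0⟩ := main_step F hlin (ε / 4) (by positivity)
  refine ⟨N0, fun n hn => ?_⟩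
  rcases hN0 n hn with h | ⟨h, v, hv1, hvn, hn1, hq⟩
  · refine ⟨0, fun m _ => ?_⟩
    have : (0 : ℝ) ≤ (extremalNumber m F : ℝ) / m := by positivity
    linarith
  · obtain ⟨M1, hM1⟩ := exists_nat_ge (k * ((h : ℝ) + v) / (ε / 4))
    refine ⟨max (h + (k + 1) * v + 1) M1, fun m hm => ?_⟩
    have hm1 : h + (k + 1) * v + 1 ≤ m := le_trans (le_max_left _ _) hm
    have hm2 : M1 ≤ m := le_trans (le_max_right _ _) hm
    by_cases hx : (2 * extremalNumber n F - 5 * (ε / 4) * n : ℝ) ≤ 0
    · have h1 : (extremalNumber n F : ℝ) / n ≤ ε := by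
        rw [div_le_iff₀ (by exact_mod_cast hn1)]
        have : (0 : ℝ) ≤ ε * n := by positivity
        linarith
      have : (0 : ℝ) ≤ (extremalNumber m F : ℝ) / m := by positivity
      linarith
    push Not at hx
    set x : ℝ := 2 * extremalNumber n F - 5 * (ε / 4) * n with hxdef
    set q : ℕ := (m - h) / v with hqdef
    have hqv : q * v ≤ m - h := Nat.div_mul_le_self _ _
    have hqv2 : m - h < (q + 1) * v := by
      rw [hqdef, mul_comm]
      exact Nat.lt_mul_div_succ _ (by omega)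
    have hkq : k ≤ q := by
      rw [hqdef, Nat.le_div_iff_mul_le (by omega)]
      have : (k + 1) * v = k * v + v := by ring
      omega
    have h1 := hq q
    have h2 : extremalNumber (h + q * v) F ≤ extremalNumber m F := by
      apply ext_mono' F _ _ _ (by omega)
      calc Fintype.card V ≤ q := hkq
        _ = q * 1 := by ring
        _ ≤ q * v := Nat.mul_le_mul_left _ hv1
        _ ≤ h + q * v := Nat.le_add_left _ _
    have hvr : (1 : ℝ) ≤ v := by exact_mod_cast hv1
    have hnr : (1 : ℝ) ≤ n := by exact_mod_cast hn1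
    have hvnr : (v : ℝ) ≤ n := by exact_mod_cast hvn
    have hmr : (0 : ℝ) < m := by
      have : 0 < m := by omega
      exact_mod_cast this
    have h3 : (m : ℝ) - h - v ≤ q * v := by
      have h4 : m < h + (q + 1) * v := by omega
      have h5 : (m : ℝ) < h + (q + 1) * v := by exact_mod_cast h4
      linarith
    have h4 : (q : ℝ) * x ≤ 2 * extremalNumber m F := by
      have : (extremalNumber (h + q * v) F : ℝ) ≤ extremalNumber m F := by exact_mod_cast h2
      linarith
    have h5 : ((m : ℝ) - h - v) * (x / n) ≤ q * x := by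
      have hm0 : (0 : ℝ) ≤ (m : ℝ) - h - v := by
        have : h + v ≤ m := by nlinarith
        have : ((h + v : ℕ) : ℝ) ≤ m := by exact_mod_cast this
        push_cast at this
        linarith
      have e1 : ((m : ℝ) - h - v) * (x / n) ≤ ((m : ℝ) - h - v) * (x / v) := by
        apply mul_le_mul_of_nonneg_left _ hm0
        exact div_le_div_of_nonneg_left hx.le (by linarith) hvnr
      have e2 : ((m : ℝ) - h - v) * (x / v) ≤ q * v * (x / v) :=
        mul_le_mul_of_nonneg_right h3 (by positivity)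
      have e3 : (q : ℝ) * v * (x / v) = q * x := by field_simp
      linarith
    have h6 : x / n ≤ 2 * k := by
      rw [div_le_iff₀ (by linarith)]
      have : (extremalNumber n F : ℝ) ≤ k * n := by exact_mod_cast hlin n
      have h7 : (0 : ℝ) ≤ 5 * (ε / 4) * n := by positivity
      linarith
    have h7 : (k : ℝ) * (h + v) ≤ ε / 4 * m := by
      have e1 : (M1 : ℝ) ≤ m := by exact_mod_cast hm2
      have e2 := hM1.trans e1
      rw [div_le_iff₀ (by positivity)] at e2
      linarith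
    have h8 : m * (x / n) - 2 * (ε / 4 * m) ≤ 2 * extremalNumber m F := by
      have e1 : ((h : ℝ) + v) * (x / n) ≤ (h + v) * (2 * k) :=
        mul_le_mul_of_nonneg_left h6 (by positivity)
      nlinarith
    have h9 : x / n = 2 * (extremalNumber n F / n) - 5 * (ε / 4) := by
      rw [hxdef]
      field_simp
    rw [h9] at h8
    have h10 : (extremalNumber n F : ℝ) / n - 5 / 2 * (ε / 4) - ε / 4 ≤ extremalNumber m F / m := by
      rw [le_div_iff₀ hmr]
      linarith
    linarith

end H213F
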